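import Pool.Agent.W661.RC.Stm2

set_option autoImplicit false

namespace Pool.Agent.W538.RC.AS1

open Matrix Pool.Agent.W661.RC
open scoped ComplexOrder

section basic

variable {m n p : Type} [Fintype m] [Fintype n] [Fintype p]

theorem hs_eq (A : Matrix m n ℂ) : hs A = (Matrix.trace (Aᴴ * A)).re := by
  classical
  unfold hs
  simp only [Matrix.trace, Matrix.diag_apply, Matrix.mul_apply, Matrix.conjTranspose_apply,
    Complex.re_sum]
  rw [Finset.sum_comm]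
  refine Finset.sum_congr rfl fun j _ => Finset.sum_congr rfl fun i _ => ?_
  have h : star (A i j) * A i j = ((‖A i j‖ ^ 2 : ℝ) : ℂ) := by
    rw [Complex.star_def, mul_comm, Complex.mul_conj, Complex.normSq_eq_norm_sq]
  rw [h, Complex.ofReal_re]

theorem hs_conjTranspose (A : Matrix m n ℂ) : hs Aᴴ = hs A := by
  unfold hs
  rw [Finset.sum_comm]
  refine Finset.sum_congr rfl fun j _ => Finset.sum_congr rfl fun i _ => ?_
  rw [Matrix.conjTranspose_apply, norm_star]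

theorem hs_add_le (A B : Matrix m n ℂ) : hs (A + B) ≤ 2 * hs A + 2 * hs B := by
  unfold hs
  rw [Finset.mul_sum, Finset.mul_sum, ← Finset.sum_add_distrib]
  refine Finset.sum_le_sum fun i _ => ?_
  rw [Finset.mul_sum, Finset.mul_sum, ← Finset.sum_add_distrib]
  refine Finset.sum_le_sum fun j _ => ?_
  rw [Matrix.add_apply]
  have h := norm_add_le (A i j) (B i j)
  have h0 := norm_nonneg (A i j + B i j)
  nlinarith [sq_nonneg (‖A i j‖ - ‖B i j‖), norm_nonneg (A i j), norm_nonneg (B i j)]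

theorem trace_re_nonneg {M : Matrix n n ℂ} (h : M.PosSemidef) : 0 ≤ (Matrix.trace M).re :=
  (Complex.le_def.mp h.trace_nonneg).1

/-- Left multiplication by a contraction. -/
theorem hs_mul_left_le [DecidableEq m] (C : Matrix p m ℂ) (A : Matrix m n ℂ)
    (h : Le (Cᴴ * C) 1) : hs (C * A) ≤ hs A := by
  have h1 : (Aᴴ * (1 - Cᴴ * C) * A).PosSemidef := h.conjTranspose_mul_mul_same A
  have h2 := trace_re_nonneg h1
  have h3 : Aᴴ * (1 - Cᴴ * C) * A = Aᴴ * A - (C * A)ᴴ * (C * A) := by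
    rw [Matrix.conjTranspose_mul]
    simp only [Matrix.mul_sub, Matrix.sub_mul, Matrix.mul_one, Matrix.mul_assoc]
  rw [h3, Matrix.trace_sub, Complex.sub_re, ← hs_eq, ← hs_eq] at h2
  linarith

/-- Right multiplication by a co-contraction. -/
theorem hs_mul_right_le [DecidableEq n] (A : Matrix m n ℂ) (B : Matrix n p ℂ)
    (h : Le (B * Bᴴ) 1) : hs (A * B) ≤ hs A := by
  rw [← hs_conjTranspose (A * B), Matrix.conjTranspose_mul, ← hs_conjTranspose A]
  refine hs_mul_left_le _ _ ?_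
  rw [Matrix.conjTranspose_conjTranspose]
  exact h

theorem le_one_flip [DecidableEq n] (X : Matrix n n ℂ) (h : Le (Xᴴ * X) 1) : Le (X * Xᴴ) 1 := by
  have h1 : (X * (1 - Xᴴ * X) * Xᴴ).PosSemidef := h.mul_mul_conjTranspose_same X
  have h2 : ((1 - X * Xᴴ)ᴴ * (1 - X * Xᴴ)).PosSemidef :=
    Matrix.posSemidef_conjTranspose_mul_self _
  have h3 := h2.add h1
  have h4 : (1 - X * Xᴴ)ᴴ * (1 - X * Xᴴ) + X * (1 - Xᴴ * X) * Xᴴ = 1 - X * Xᴴ := by
    simp only [Matrix.conjTranspose_sub, Matrix.conjTranspose_one, Matrix.conjTranspose_mul,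
      Matrix.conjTranspose_conjTranspose, Matrix.mul_sub, Matrix.sub_mul, Matrix.mul_one,
      Matrix.one_mul, Matrix.mul_assoc]
    abel
  rw [h4] at h3
  exact h3

end basic

section comm

variable {I K : Type} [Fintype I] [DecidableEq I]

theorem aux (l : K → ℕ) (M : (κ : K) → Matrix (Fin (l κ)) (Fin (l κ)) ℂ) (κ κ' : K)
    (h : κ = κ') (p : Fin (l κ)) (r : Fin (l κ')) :
    ∑ q : Fin (l κ'), (if (p : ℕ) = (q : ℕ) then (1 : ℂ) else 0) * M κ' q r
      = ∑ q : Fin (l κ), M κ p q * (if (q : ℕ) = (r : ℕ) then (1 : ℂ) else 0) := by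
  subst h
  have e1 : ∀ q : Fin (l κ), ((p : ℕ) = (q : ℕ)) ↔ (q = p) := fun q => by
    rw [Fin.ext_iff]; exact eq_comm
  have e2 : ∀ q : Fin (l κ), ((q : ℕ) = (r : ℕ)) ↔ (q = r) := fun q => by
    rw [Fin.ext_iff]
  simp only [e1, e2, ite_mul, one_mul, zero_mul, mul_ite, mul_one, mul_zero,
    Finset.sum_ite_eq', Finset.mem_univ, if_true]

theorem comm {d : ℕ} (c : I → K) (l : K → ℕ) (b : (κ : K) → Matrix (Fin d) (Fin (l κ)) ℂ)
    (u : Mt d) (X : Matrix (Jx c l) (Jx c l) ℂ) (hX : Blk c l X) :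
    X * Ut c l b u = Ut c l b u * X := by
  obtain ⟨α, hα, hX⟩ := hX
  have hU : ∀ (i j : I) (p : Fin (l (c i))) (q : Fin (l (c j))),
      Ut c l b u ⟨i, p⟩ ⟨j, q⟩ = if i = j then ((b (c i))ᴴ * u * b (c j)) p q else 0 :=
    fun i j p q => rfl
  ext ⟨i, p⟩ ⟨j, r⟩
  rw [Matrix.mul_apply, Matrix.mul_apply, Fintype.sum_sigma, Fintype.sum_sigma]
  have hL : ∑ x : I, ∑ y : Fin (l (c x)), X ⟨i, p⟩ ⟨x, y⟩ * Ut c l b u ⟨x, y⟩ ⟨j, r⟩
      = α i j * ∑ q : Fin (l (c j)), (if (p : ℕ) = (q : ℕ) then (1 : ℂ) else 0) *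
        ((b (c j))ᴴ * u * b (c j)) q r := by
    rw [Finset.sum_eq_single j]
    · rw [Finset.mul_sum]
      refine Finset.sum_congr rfl fun q _ => ?_
      rw [hX, hU, if_pos rfl]
      dsimp only
      split_ifs <;> ring
    · intro x _ hx
      refine Finset.sum_eq_zero fun y _ => ?_
      rw [hU, if_neg hx, mul_zero]
    · intro h
      exact absurd (Finset.mem_univ _) h
  have hR : ∑ x : I, ∑ y : Fin (l (c x)), Ut c l b u ⟨i, p⟩ ⟨x, y⟩ * X ⟨x, y⟩ ⟨j, r⟩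
      = α i j * ∑ q : Fin (l (c i)), ((b (c i))ᴴ * u * b (c i)) p q *
        (if (q : ℕ) = (r : ℕ) then (1 : ℂ) else 0) := by
    rw [Finset.sum_eq_single i]
    · rw [Finset.mul_sum]
      refine Finset.sum_congr rfl fun q _ => ?_
      rw [hX, hU, if_pos rfl]
      dsimp only
      split_ifs <;> ring
    · intro x _ hx
      refine Finset.sum_eq_zero fun y _ => ?_
      rw [hU, if_neg (Ne.symm hx), zero_mul]
    · intro h
      exact absurd (Finset.mem_univ _) h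
  rw [hL, hR]
  by_cases hc : c i = c j
  · rw [aux l (fun κ => (b κ)ᴴ * u * b κ) (c i) (c j) hc p r]
  · rw [hα i j hc, zero_mul, zero_mul]

end comm

theorem main : As1P := by
  intro d k u I K _ _ _ c l b Θ ω hu hΘ h1 h2 X hX hX1
  have hX2 : Le (X * Xᴴ) 1 := le_one_flip X hX1
  have hΘc : Le (Θᴴ * Θ) 1 := by
    rw [hΘ]; unfold Le; rw [sub_self]; exact Matrix.PosSemidef.zero
  have key : ∀ s, hs (u s * (Θ * X * Θᴴ) - Θ * X * Θᴴ * u s)
      ≤ 2 * hs (u s * Θ - Θ * Ut c l b (u s))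
        + 2 * hs ((u s)ᴴ * Θ - Θ * (Ut c l b (u s))ᴴ) := by
    intro s
    have hc := comm c l b (u s) X hX
    set U := Ut c l b (u s) with hU
    have e : u s * (Θ * X * Θᴴ) - Θ * X * Θᴴ * u s
        = (u s * Θ - Θ * U) * X * Θᴴ + Θ * (X * (U * Θᴴ - Θᴴ * u s)) := by
      have e1 : (u s * Θ - Θ * U) * X * Θᴴ = u s * (Θ * X * Θᴴ) - Θ * (U * X) * Θᴴ := by
        simp only [Matrix.sub_mul, Matrix.mul_assoc]
      have e2 : Θ * (X * (U * Θᴴ - Θᴴ * u s)) = Θ * (X * U) * Θᴴ - Θ * X * Θᴴ * u s := by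
        simp only [Matrix.mul_sub, Matrix.mul_assoc]
      rw [e1, e2, hc]
      abel
    rw [e]
    refine (hs_add_le _ _).trans ?_
    have b1 : hs ((u s * Θ - Θ * U) * X * Θᴴ) ≤ hs (u s * Θ - Θ * U) := by
      refine (hs_mul_right_le _ _ ?_).trans (hs_mul_right_le _ _ hX2)
      rw [Matrix.conjTranspose_conjTranspose]
      exact hΘc
    have b2 : hs (Θ * (X * (U * Θᴴ - Θᴴ * u s))) ≤ hs ((u s)ᴴ * Θ - Θ * Uᴴ) := by
      refine ((hs_mul_left_le _ _ hΘc).trans (hs_mul_left_le _ _ hX1)).trans ?_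
      rw [← hs_conjTranspose ((u s)ᴴ * Θ - Θ * Uᴴ)]
      have e3 : ((u s)ᴴ * Θ - Θ * Uᴴ)ᴴ = (-1 : ℂ) • (U * Θᴴ - Θᴴ * u s) := by
        simp only [Matrix.conjTranspose_sub, Matrix.conjTranspose_mul,
          Matrix.conjTranspose_conjTranspose]
        rw [neg_one_smul, neg_sub]
      rw [e3]
      refine le_of_eq ?_
      unfold hs
      refine Finset.sum_congr rfl fun i _ => Finset.sum_congr rfl fun j _ => ?_
      rw [Matrix.smul_apply, norm_smul, norm_neg, norm_one, one_mul]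
    linarith
  unfold en
  calc ∑ s, hs (u s * (Θ * X * Θᴴ) - Θ * X * Θᴴ * u s)
      ≤ ∑ s, (2 * hs (u s * Θ - Θ * Ut c l b (u s))
        + 2 * hs ((u s)ᴴ * Θ - Θ * (Ut c l b (u s))ᴴ)) := Finset.sum_le_sum fun s _ => key s
    _ = 2 * ∑ s, hs (u s * Θ - Θ * Ut c l b (u s))
        + 2 * ∑ s, hs ((u s)ᴴ * Θ - Θ * (Ut c l b (u s))ᴴ) := by
        rw [Finset.sum_add_distrib, ← Finset.mul_sum, ← Finset.mul_sum]
    _ ≤ 4 * ω := by linarith

end Pool.Agent.W538.RC.AS1
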